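import Pool.Agent.H370R2.PC1
import Pool.Agent.H370R2.Local
import Pool.Agent.H370R2.DirGood

/-!
# Small gaps between the ordinates of the zeta zeros: what a lower bound for `α` would give

`α = liminf log (γ_{n+1} - γ_n) / log n`. A nontrivial zero which is multiple or off the critical line produces two
equal consecutive ordinates. Hence if `α > -∞`, then all but finitely many nontrivial zeros are simple and lie on the
critical line. Quantitatively, the number of exceptional zeros up to height `T`, with multiplicity, is at most twice the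
number of `n < N(T)` with `γ_{n+1} = γ_n`; so if almost all gaps are nonzero (in particular if almost all gaps are at
least `n^(-A)`), then almost all zeros are simple and lie on the critical line.
-/

open Filter Topology Complex Set

namespace Pool.Agent.Results.MP_af3d17_nt.EqualOrdinates

/-- multiplicity of `s` as a zero of zeta -/
noncomputable def zmult (s : ℂ) : ℕ := analyticOrderNatAt riemannZeta s

/-- the nontrivial zeros with ordinate in `(0, t]` -/
def zeros (t : ℝ) : Set ℂ :=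
  {s : ℂ | riemannZeta s = 0 ∧ 0 < s.re ∧ s.re < 1 ∧ 0 < s.im ∧ s.im ≤ t}

/-- their number, counted with multiplicity -/
noncomputable def NZ (t : ℝ) : ℕ := ∑ᶠ s ∈ zeros t, zmult s

/-- for `n ≥ 1`: the `n`-th positive ordinate, repeated according to multiplicity -/
noncomputable def γ (n : ℕ) : ℝ := sInf {t : ℝ | n ≤ NZ t}

open Classical in
/-- the exponent `α`, with the convention `log 0 = -∞` -/
noncomputable def α : EReal :=
  liminf (fun n : ℕ => if γ (n + 1) = γ n then (⊥ : EReal) else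
    ((Real.log (γ (n + 1) - γ n) / Real.log n : ℝ) : EReal)) atTop

/-- the exceptional zeros: multiple or off the critical line -/
def exceptional : Set ℂ :=
  {s : ℂ | riemannZeta s = 0 ∧ 0 < s.re ∧ s.re < 1 ∧ 0 < s.im ∧ (s.re ≠ 1 / 2 ∨ deriv riemannZeta s = 0)}

lemma zeta_an {s : ℂ} (hs : s ≠ 1) : AnalyticAt ℂ riemannZeta s := by
  have hd : DifferentiableOn ℂ riemannZeta {1}ᶜ := fun z hz =>
    (differentiableAt_riemannZeta hz).differentiableWithinAt
  exact hd.analyticAt (isOpen_compl_singleton.mem_nhds hs)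

theorem zeros_finite (t : ℝ) : (zeros t).Finite := by
  have hcomp : IsCompact (Icc (0 : ℝ) 1 ×ℂ Icc 0 t) := isCompact_Icc.reProdIm isCompact_Icc
  refine hcomp.inter_riemannZetaZeros_finite.subset ?_
  rintro s ⟨h0, h1, h2, h3, h4⟩
  exact ⟨⟨⟨h1.le, h2.le⟩, ⟨h3.le, h4⟩⟩, h0⟩

lemma NZ_eq (t : ℝ) : NZ t = ∑ s ∈ (zeros_finite t).toFinset, zmult s :=
  finsum_mem_eq_finite_toFinset_sum _ (zeros_finite t)

lemma zmult_pos {s : ℂ} (hs : 0 < s.im) (h0 : riemannZeta s = 0) : 1 ≤ zmult s :=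
  H370.Loc.mult_pos' H370.good_zeta hs h0

lemma zmult_two {s : ℂ} (hs : 0 < s.im) (h0 : riemannZeta s = 0)
    (h1 : deriv riemannZeta s = 0) : 2 ≤ zmult s := by
  have hs1 : s ≠ 1 := by intro h; rw [h] at hs; simp at hs
  have ha := zeta_an hs1
  have hp := zmult_pos hs h0
  have htop : analyticOrderAt riemannZeta s ≠ ⊤ := by
    intro h
    unfold zmult analyticOrderNatAt at hp
    rw [h] at hp
    simp at hp
  have h2 := ha.analyticOrderAt_deriv_add_one
  have h3 : (fun z => riemannZeta z - riemannZeta s) = riemannZeta := by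
    funext z; rw [h0, sub_zero]
  rw [h3] at h2
  have h4 : analyticOrderAt (deriv riemannZeta) s ≠ 0 :=
    ha.deriv.analyticOrderAt_ne_zero.mpr h1
  have h5 : (zmult s : ℕ∞) = analyticOrderAt riemannZeta s := Nat.cast_analyticOrderNatAt htop
  have h6 : (1 : ℕ∞) ≤ analyticOrderAt (deriv riemannZeta) s := Order.one_le_iff_ne_zero.mpr h4
  have h7 : (2 : ℕ∞) ≤ (zmult s : ℕ∞) := by
    rw [h5, ← h2, ← one_add_one_eq_two]
    gcongr
  exact_mod_cast h7

lemma NZ_add_le (t' t : ℝ) (h : t' ≤ t) (A : Finset ℂ) (hA : ∀ s ∈ A, s ∈ zeros t ∧ t' < s.im) :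
    NZ t' + ∑ s ∈ A, zmult s ≤ NZ t := by
  classical
  rw [NZ_eq, NZ_eq, ← Finset.sum_union]
  · apply Finset.sum_le_sum_of_subset
    intro s hs
    rcases Finset.mem_union.mp hs with hs | hs
    · rw [Set.Finite.mem_toFinset] at hs ⊢
      exact ⟨hs.1, hs.2.1, hs.2.2.1, hs.2.2.2.1, hs.2.2.2.2.trans h⟩
    · rw [Set.Finite.mem_toFinset]
      exact (hA s hs).1
  · rw [Finset.disjoint_left]
    intro s hs hs'
    rw [Set.Finite.mem_toFinset] at hs
    exact absurd hs.2.2.2.2 (not_le.mpr (hA s hs').2)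

lemma NZ_mono : Monotone NZ := by
  intro a b h
  have := NZ_add_le a b h ∅ (by simp)
  simpa using this

/-- the counting function jumps by at least two at the ordinate of an exceptional zero -/
lemma jump {s : ℂ} (hs : s ∈ exceptional) (h1 : 1 < s.im) {u : ℝ} (hu : u < s.im) : NZ u + 2 ≤ NZ s.im := by
  classical
  obtain ⟨h0, ha, hb, hc, hd⟩ := hs
  by_cases h2 : deriv riemannZeta s = 0
  · have h3 := NZ_add_le u s.im hu.le {s} (by
      intro z hz
      rw [Finset.mem_singleton] at hz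
      subst hz
      exact ⟨⟨h0, ha, hb, hc, le_rfl⟩, hu⟩)
    rw [Finset.sum_singleton] at h3
    have h4 := zmult_two hc h0 h2
    omega
  · have hre : s.re ≠ 1 / 2 := by tauto
    have hz : s ∈ H370.zset riemannZeta 1 s.im := ⟨ha, hb, h1, le_rfl, h0⟩
    have hz' := H370.zset_refl H370.good_zeta le_rfl hz
    set s' : ℂ := 1 - (starRingEnd ℂ) s with hs'
    have him : s'.im = s.im := by simp [hs']
    have hre' : s'.re = 1 - s.re := by simp [hs']
    obtain ⟨b1, b2, b3, b4, b5⟩ := hz'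
    have hne : s ≠ s' := by
      intro h
      have := congrArg Complex.re h
      rw [hre'] at this
      apply hre
      linarith
    have h3 := NZ_add_le u s.im hu.le {s, s'} (by
      intro z hz
      rw [Finset.mem_insert, Finset.mem_singleton] at hz
      rcases hz with hz | hz
      · subst hz
        exact ⟨⟨h0, ha, hb, hc, le_rfl⟩, hu⟩
      · rw [hz]
        exact ⟨⟨b5, b1, b2, by linarith, b4⟩, by rw [him]; exact hu⟩)
    rw [Finset.sum_pair hne] at h3
    have h4 := zmult_pos hc h0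
    have h5 := zmult_pos (s := s') (by rw [him]; exact hc) b5
    omega

lemma γ_eq {n : ℕ} {t : ℝ} (h1 : n ≤ NZ t) (h2 : ∀ u : ℝ, u < t → NZ u < n) : γ n = t := by
  have h : IsLeast {u : ℝ | n ≤ NZ u} t := by
    refine ⟨h1, fun u hu => ?_⟩
    by_contra hlt
    push Not at hlt
    have h3 := h2 u hlt
    have h4 : n ≤ NZ u := hu
    omega
  exact h.csInf_eq

/-- equal consecutive ordinates -/
lemma equal {s : ℂ} (hs : s ∈ exceptional) (h1 : 1 < s.im) :
    1 ≤ NZ s.im - 1 ∧ γ (NZ s.im - 1) = s.im ∧ γ (NZ s.im - 1 + 1) = s.im := by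
  have hj : ∀ u : ℝ, u < s.im → NZ u + 2 ≤ NZ s.im := fun u hu => jump hs h1 hu
  have h2 := hj 0 (by linarith)
  refine ⟨by omega, γ_eq (by omega) fun u hu => ?_, γ_eq (by omega) fun u hu => ?_⟩
  · have := hj u hu
    omega
  · have := hj u hu
    omega

theorem frequently_equal (h : exceptional.Infinite) : ∃ᶠ n : ℕ in atTop, γ (n + 1) = γ n := by
  classical
  have hinf : (exceptional \ zeros 1).Infinite := h.sdiff (zeros_finite 1)
  rw [Filter.frequently_atTop]
  intro n0
  obtain ⟨A, hA, hcard⟩ := hinf.exists_subset_card_eq (n0 + 2)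
  have hne : A.Nonempty := by
    rw [← Finset.card_pos]; omega
  obtain ⟨s, hsA, hmax⟩ := A.exists_max_image (fun s => s.im) hne
  have hmem : ∀ z ∈ A, z ∈ exceptional ∧ 1 < z.im := by
    intro z hz
    obtain ⟨h1, h2⟩ := hA hz
    refine ⟨h1, ?_⟩
    by_contra hle
    push Not at hle
    exact h2 ⟨h1.1, h1.2.1, h1.2.2.1, h1.2.2.2.1, hle⟩
  have hcount : n0 + 2 ≤ NZ s.im := by
    have h1 := NZ_add_le 0 s.im (by linarith [(hmem s hsA).2]) A (by
      intro z hz
      obtain ⟨⟨h1, h2, h3, h4, -⟩, -⟩ := hmem z hz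
      exact ⟨⟨h1, h2, h3, h4, hmax z hz⟩, h4⟩)
    have h2 : A.card ≤ ∑ z ∈ A, zmult z := by
      rw [Finset.card_eq_sum_ones]
      exact Finset.sum_le_sum fun z hz => zmult_pos (hmem z hz).1.2.2.2.1 (hmem z hz).1.1
    omega
  obtain ⟨h1, h2, h3⟩ := equal (hmem s hsA).1 (hmem s hsA).2
  exact ⟨NZ s.im - 1, by omega, by rw [h2, h3]⟩

/-- the exceptional zeros with ordinate in `(1, T]` (there is no zero with ordinate in `(0, 1]`) -/
def excT (T : ℝ) : Set ℂ := {s : ℂ | s ∈ exceptional ∧ 1 < s.im ∧ s.im ≤ T}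

/-- their number, counted with multiplicity -/
noncomputable def Nexc (T : ℝ) : ℕ := ∑ᶠ s ∈ excT T, zmult s

/-- the indices of equal consecutive ordinates -/
def eqs (T : ℝ) : Set ℕ := {n : ℕ | 1 ≤ n ∧ n < NZ T ∧ γ (n + 1) = γ n}

lemma excT_finite (T : ℝ) : (excT T).Finite := by
  refine (zeros_finite T).subset ?_
  rintro s ⟨⟨h1, h2, h3, h4, -⟩, -, h6⟩
  exact ⟨h1, h2, h3, h4, h6⟩

lemma fiber {s : ℂ} (hs : s ∈ exceptional) (h1 : 1 < s.im) :
    ∃ p : ℕ, p + 2 ≤ NZ s.im ∧ (∀ u : ℝ, u < s.im → NZ u ≤ p) ∧ ∃ u : ℝ, u < s.im ∧ NZ u = p := by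
  set S : Set ℕ := {k : ℕ | ∃ u : ℝ, u < s.im ∧ NZ u = k} with hS
  have hne : S.Nonempty := ⟨NZ 0, 0, by linarith, rfl⟩
  have hbd : BddAbove S := by
    refine ⟨NZ s.im, ?_⟩
    rintro k ⟨u, hu, rfl⟩
    exact NZ_mono hu.le
  obtain ⟨u, hu, hp⟩ := Nat.sSup_mem hne hbd
  refine ⟨sSup S, ?_, fun v hv => le_csSup hbd ⟨v, hv, rfl⟩, u, hu, hp⟩
  rw [← hp]
  exact jump hs h1 hu

theorem count (T : ℝ) : Nexc T ≤ 2 * (eqs T).ncard := by
  classical
  have hfin : (eqs T).Finite := (Set.finite_Iio (NZ T)).subset fun n hn => hn.2.1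
  unfold Nexc
  rw [finsum_mem_eq_finite_toFinset_sum _ (excT_finite T), Set.ncard_eq_toFinset_card _ hfin]
  set X := (excT_finite T).toFinset with hX
  have hXm : ∀ s ∈ X, s ∈ exceptional ∧ 1 < s.im ∧ s.im ≤ T := by
    intro s hs
    rw [hX, Set.Finite.mem_toFinset] at hs
    exact hs
  have hp : ∀ t : ℝ, t ∈ X.image (fun s => s.im) → ∃ p : ℕ, p + 2 ≤ NZ t ∧ (∀ u : ℝ, u < t → NZ u ≤ p) ∧
      ∃ u : ℝ, u < t ∧ NZ u = p := by
    intro t ht
    rw [Finset.mem_image] at ht
    obtain ⟨s, hs, rfl⟩ := ht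
    exact fiber (hXm s hs).1 (hXm s hs).2.1
  choose! p hp1 hp2 hp3 using hp
  have hγ : ∀ t ∈ X.image (fun s => s.im), ∀ n : ℕ, p t < n → n ≤ NZ t → γ n = t := by
    intro t ht n h1 h2
    refine γ_eq h2 fun u hu => ?_
    have := hp2 t ht u hu
    omega
  -- the fibres
  have hfib : ∀ t ∈ X.image (fun s => s.im), ∑ s ∈ X.filter (fun s => s.im = t), zmult s ≤
      2 * (Finset.Ioo (p t) (NZ t)).card := by
    intro t ht
    obtain ⟨u, hu, hpu⟩ := hp3 t ht
    have h1 := NZ_add_le u t hu.le (X.filter (fun s => s.im = t)) (by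
      intro z hz
      rw [Finset.mem_filter] at hz
      obtain ⟨⟨⟨a1, a2, a3, a4, -⟩, -, -⟩⟩ := And.intro (hXm z hz.1) trivial
      exact ⟨⟨a1, a2, a3, a4, hz.2.le⟩, by rw [hz.2]; exact hu⟩)
    have h2 := hp1 t ht
    rw [Nat.card_Ioo]
    omega
  have hsum : ∑ s ∈ X, zmult s = ∑ t ∈ X.image (fun s => s.im), ∑ s ∈ X.filter (fun s => s.im = t), zmult s :=
    (Finset.sum_fiberwise_of_maps_to (fun s hs => Finset.mem_image_of_mem _ hs) _).symm
  rw [hsum]
  refine (Finset.sum_le_sum hfib).trans ?_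
  rw [← Finset.mul_sum]
  refine Nat.mul_le_mul_left 2 ?_
  rw [← Finset.card_biUnion]
  · refine Finset.card_le_card fun n hn => ?_
    rw [Finset.mem_biUnion] at hn
    obtain ⟨t, ht, hn⟩ := hn
    rw [Finset.mem_Ioo] at hn
    rw [Set.Finite.mem_toFinset]
    have htT : NZ t ≤ NZ T := by
      rw [Finset.mem_image] at ht
      obtain ⟨s, hs, rfl⟩ := ht
      exact NZ_mono (hXm s hs).2.2
    refine ⟨by omega, by omega, ?_⟩
    rw [hγ t ht n hn.1 hn.2.le, hγ t ht (n + 1) (by omega) (by omega)]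
  · intro t ht t' ht' hne
    rw [Finset.mem_coe] at ht ht'
    rw [Function.onFun, Finset.disjoint_left]
    intro n hn hn'
    rw [Finset.mem_Ioo] at hn hn'
    apply hne
    rw [← hγ t ht n hn.1 hn.2.le, ← hγ t' ht' n hn'.1 hn'.2.le]

/-- **What a lower bound for the smallest gaps gives** -/
theorem result :
    -- if there are infinitely many exceptional zeros, then `γ (n + 1) = γ n` infinitely often and `α = -∞`
    (exceptional.Infinite → (∃ᶠ n : ℕ in atTop, γ (n + 1) = γ n) ∧ α = ⊥) ∧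
    -- if `α > -∞`, then all but finitely many zeros are simple and on the critical line
    (α ≠ ⊥ → exceptional.Finite) ∧
    -- the number of exceptional zeros is at most twice the number of equal consecutive ordinates
    (∀ T : ℝ, Nexc T ≤ 2 * (eqs T).ncard) ∧
    -- if almost all gaps are nonzero, then almost all zeros are simple and on the critical line
    (Tendsto (fun T : ℝ => ((eqs T).ncard : ℝ) / NZ T) atTop (𝓝 0) →
      Tendsto (fun T : ℝ => (Nexc T : ℝ) / NZ T) atTop (𝓝 0)) := by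
  have h1 : exceptional.Infinite → (∃ᶠ n : ℕ in atTop, γ (n + 1) = γ n) ∧ α = ⊥ := by
    intro h
    have h2 := frequently_equal h
    refine ⟨h2, ?_⟩
    rw [← le_bot_iff]
    unfold α
    refine Filter.liminf_le_of_frequently_le' ?_
    refine h2.mono fun n hn => ?_
    rw [if_pos hn]
  refine ⟨h1, fun h => ?_, count, fun h => ?_⟩
  · by_contra hcon
    exact h (h1 hcon).2
  · have h2 : Tendsto (fun T : ℝ => 2 * (((eqs T).ncard : ℝ) / NZ T)) atTop (𝓝 (2 * 0)) := h.const_mul 2
    rw [mul_zero] at h2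
    refine squeeze_zero (fun T => by positivity) (fun T => ?_) h2
    have h3 : (Nexc T : ℝ) ≤ 2 * ((eqs T).ncard : ℝ) := by exact_mod_cast count T
    rw [mul_div_assoc']
    exact div_le_div_of_nonneg_right h3 (Nat.cast_nonneg _)

end Pool.Agent.Results.MP_af3d17_nt.EqualOrdinates
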